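import Pool.Agent.W734.TWB.Stms

/-! Project TWB (helper734), part TRUNC: truncation of the external potential (IMS localisation). -/

set_option autoImplicit false

noncomputable section

namespace Pool.Agent.W906.TWB

open Pool.Agent.W734.TWB MeasureTheory Set Filter Metric

lemma integrable_mul_cs {Q : E3 → ℝ} (hQ : Measurable Q)
    (hloc : ∀ K : Set E3, IsCompact K → ∃ M : ℝ, ∀ x ∈ K, |Q x| ≤ M) {w : E3 → ℝ}
    (hw : Continuous w) (hs : HasCompactSupport w) : Integrable (fun x => Q x * w x) := by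
  obtain ⟨M, hM⟩ := hloc _ hs
  have h1 : Integrable w := hw.integrable_of_hasCompactSupport hs
  refine (h1.norm.const_mul M).mono' (hQ.mul hw.measurable).aestronglyMeasurable ?_
  filter_upwards with x
  rw [norm_mul]
  by_cases hx : x ∈ tsupport w
  · exact mul_le_mul_of_nonneg_right (hM x hx) (norm_nonneg _)
  · rw [image_eq_zero_of_notMem_tsupport hx]
    simp

lemma g3_nonneg (u : E3 → ℂ) (x : E3) : 0 ≤ g3 u x :=
  Finset.sum_nonneg fun _ _ => sq_nonneg _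

lemma g3_integrable {u : E3 → ℂ} (hu : ContDiff ℝ 1 u) (hs : HasCompactSupport u) :
    Integrable (g3 u) := by
  have hc : Continuous (g3 u) := by
    unfold g3
    refine continuous_finsetSum _ fun k _ => ?_
    exact (((hu.continuous_fderiv one_ne_zero).clm_apply continuous_const).norm.pow 2)
  have hcs : HasCompactSupport (g3 u) :=
    (hs.fderiv (𝕜 := ℝ)).comp_left
      (g := fun L : E3 →L[ℝ] ℂ => ∑ k : Fin 3, ‖L (EuclideanSpace.single k (1 : ℝ))‖ ^ 2)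
      (by simp)
  exact hc.integrable_of_hasCompactSupport hcs

/-- The IMS localisation formula. -/
lemma ims {θ : E3 → ℝ} {u : E3 → ℂ} (hθ : Differentiable ℝ θ) (hu : Differentiable ℝ u) (x : E3) :
    g3 (fun x => Real.cos (θ x) • u x) x + g3 (fun x => Real.sin (θ x) • u x) x =
      g3 u x + (∑ k : Fin 3, (fderiv ℝ θ x (EuclideanSpace.single k (1 : ℝ))) ^ 2) * ‖u x‖ ^ 2 := by
  have hθx := (hθ x).hasFDerivAt
  have hux := (hu x).hasFDerivAt
  have h1 := (hθx.cos.smul hux).fderiv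
  have h2 := (hθx.sin.smul hux).fderiv
  unfold g3
  rw [Finset.sum_mul, ← Finset.sum_add_distrib, ← Finset.sum_add_distrib]
  refine Finset.sum_congr rfl fun k _ => ?_
  change ‖fderiv ℝ (fun x => Real.cos (θ x) • u x) x _‖ ^ 2 +
    ‖fderiv ℝ (fun x => Real.sin (θ x) • u x) x _‖ ^ 2 = _
  have h1' : fderiv ℝ (fun x => Real.cos (θ x) • u x) x = _ := h1
  have h2' : fderiv ℝ (fun x => Real.sin (θ x) • u x) x = _ := h2
  rw [h1', h2']
  simp only [ContinuousLinearMap.add_apply, ContinuousLinearMap.smul_apply,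
    ContinuousLinearMap.smulRight_apply, smul_eq_mul]
  generalize fderiv ℝ u x (EuclideanSpace.single k (1 : ℝ)) = p
  generalize fderiv ℝ θ x (EuclideanSpace.single k (1 : ℝ)) = t
  generalize u x = q
  simp only [Complex.sq_norm, Complex.normSq_apply, Complex.add_re, Complex.add_im,
    Complex.real_smul, Complex.re_ofReal_mul, Complex.im_ofReal_mul]
  have h3 := Real.cos_sq_add_sin_sq (θ x)
  linear_combination (p.re ^ 2 + p.im ^ 2 + t ^ 2 * (q.re ^ 2 + q.im ^ 2)) * h3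

/-- the basic phase -/
def ph (y : E3) : ℝ := Real.pi / 2 * Real.smoothTransition ((‖y‖ ^ 2 - 1) / 3)

lemma ph_smooth : ContDiff ℝ ((⊤ : ℕ∞) : WithTop ℕ∞) ph := by
  unfold ph
  refine contDiff_const.mul (Real.smoothTransition.contDiff.comp ?_)
  exact ((contDiff_norm_sq ℝ).sub contDiff_const).div_const 3

lemma ph_in {y : E3} (hy : ‖y‖ ≤ 1) : ph y = 0 := by
  unfold ph
  rw [Real.smoothTransition.zero_of_nonpos, mul_zero]
  have : ‖y‖ ^ 2 ≤ 1 := by nlinarith [norm_nonneg y]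
  linarith

lemma ph_out {y : E3} (hy : 2 ≤ ‖y‖) : ph y = Real.pi / 2 := by
  unfold ph
  rw [Real.smoothTransition.one_of_one_le, mul_one]
  have : 4 ≤ ‖y‖ ^ 2 := by nlinarith [norm_nonneg y]
  linarith

lemma ph_bd : ∃ C : ℝ, 0 ≤ C ∧ ∀ y, ‖fderiv ℝ ph y‖ ≤ C := by
  have h1 : HasCompactSupport (fun y => ph y - Real.pi / 2) := by
    refine HasCompactSupport.intro (isCompact_closedBall (0 : E3) 2) fun y hy => ?_
    rw [mem_closedBall_zero_iff, not_le] at hy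
    rw [ph_out hy.le, sub_self]
  have h2 : fderiv ℝ (fun y => ph y - Real.pi / 2) = fderiv ℝ ph := by
    funext y
    exact fderiv_sub_const _
  have h3 : HasCompactSupport (fderiv ℝ ph) := by
    rw [← h2]
    exact h1.fderiv (𝕜 := ℝ)
  have h4 : Continuous (fderiv ℝ ph) := ph_smooth.continuous_fderiv (by simp)
  obtain ⟨C, hC⟩ := h4.bounded_above_of_compact_support h3
  exact ⟨max C 0, le_max_right _ _, fun y => (hC y).trans (le_max_left _ _)⟩

theorem trunc : S_TRUNC := by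
  intro Vext hV ρ hρc hρs hρ0 lam hlam ε hε
  obtain ⟨C0, hC00, hC0⟩ := ph_bd
  obtain ⟨C, α, hC, hα, hlow⟩ := hV.low
  -- choice of the radius
  obtain ⟨r, hr1, hr2, hr3⟩ : ∃ r : ℝ, 1 ≤ r ∧ 3 * (C0 / r) ^ 2 ≤ ε ∧ lam ≤ C * r ^ α := by
    have e1 : Tendsto (fun r : ℝ => 3 * (C0 / r) ^ 2) atTop (nhds 0) := by
      have h1 : Tendsto (fun r : ℝ => C0 / r) atTop (nhds 0) := tendsto_const_nhds.div_atTop tendsto_id
      have h2 := (h1.pow 2).const_mul 3
      simpa using h2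
    have e2 : Tendsto (fun r : ℝ => C * r ^ α) atTop atTop :=
      (tendsto_rpow_atTop hα).const_mul_atTop hC
    obtain ⟨r, h1, h2, h3⟩ := ((eventually_ge_atTop (1 : ℝ)).and
      ((e1.eventually (Iio_mem_nhds hε)).and (e2.eventually (eventually_ge_atTop lam)))).exists
    exact ⟨r, h1, le_of_lt h2, h3⟩
  have hr0 : 0 < r := by linarith
  obtain ⟨M, hM⟩ := hV.loc (closedBall (0 : E3) (2 * r)) (isCompact_closedBall _ _)
  -- the level
  let Λ : ℝ := max (max M lam) 0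
  have hΛM : M ≤ Λ := (le_max_left _ _).trans (le_max_left _ _)
  have hΛl : lam ≤ Λ := (le_max_right _ _).trans (le_max_left _ _)
  refine ⟨Λ, le_max_right _ _, ?_⟩
  intro u hu hus
  -- the phase
  let θ : E3 → ℝ := fun x => ph (r⁻¹ • x)
  have hθs : ContDiff ℝ ((⊤ : ℕ∞) : WithTop ℕ∞) θ := ph_smooth.comp (contDiff_const_smul r⁻¹)
  have hθd : Differentiable ℝ θ := hθs.differentiable (by simp)
  have hud : Differentiable ℝ u := hu.differentiable (by simp)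
  have hu1 : ContDiff ℝ 1 u := hu.of_le (by exact_mod_cast le_top)
  have hθb : ∀ x, ‖fderiv ℝ θ x‖ ≤ C0 / r := by
    intro x
    have h1 : HasFDerivAt θ ((fderiv ℝ ph (r⁻¹ • x)).comp
        (r⁻¹ • ContinuousLinearMap.id ℝ E3)) x := by
      have h2 : HasFDerivAt (fun x : E3 => r⁻¹ • x) (r⁻¹ • ContinuousLinearMap.id ℝ E3) x :=
        (hasFDerivAt_id x).const_smul r⁻¹
      have h3 : HasFDerivAt ph (fderiv ℝ ph (r⁻¹ • x)) (r⁻¹ • x) :=
        (ph_smooth.differentiable (by simp) _).hasFDerivAt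
      exact h3.comp x h2
    rw [h1.fderiv, ContinuousLinearMap.comp_smul, ContinuousLinearMap.comp_id, norm_smul,
      norm_inv, Real.norm_eq_abs, abs_of_pos hr0, div_eq_inv_mul]
    exact mul_le_mul_of_nonneg_left (hC0 _) (inv_nonneg.mpr hr0.le)
  have hgrad : ∀ x, ∑ k : Fin 3, (fderiv ℝ θ x (EuclideanSpace.single k (1 : ℝ))) ^ 2 ≤ ε := by
    intro x
    have h1 : ∀ k : Fin 3, (fderiv ℝ θ x (EuclideanSpace.single k (1 : ℝ))) ^ 2 ≤
        (C0 / r) ^ 2 := by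
      intro k
      have h2 : ‖fderiv ℝ θ x (EuclideanSpace.single k (1 : ℝ))‖ ≤ C0 / r := by
        refine ((fderiv ℝ θ x).le_opNorm _).trans ?_
        rw [EuclideanSpace.norm_single, norm_one, mul_one]
        exact hθb x
      rw [← sq_abs, ← Real.norm_eq_abs]
      exact pow_le_pow_left₀ (norm_nonneg _) h2 2
    calc _ ≤ ∑ _k : Fin 3, (C0 / r) ^ 2 := Finset.sum_le_sum fun k _ => h1 k
      _ = 3 * (C0 / r) ^ 2 := by simp
      _ ≤ ε := hr2
  -- the two pieces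
  let u1 : E3 → ℂ := fun x => Real.cos (θ x) • u x
  let u2 : E3 → ℂ := fun x => Real.sin (θ x) • u x
  have hu1s : ContDiff ℝ ((⊤ : ℕ∞) : WithTop ℕ∞) u1 := hθs.cos.smul hu
  have hu2s : ContDiff ℝ ((⊤ : ℕ∞) : WithTop ℕ∞) u2 := hθs.sin.smul hu
  have hu1c : HasCompactSupport u1 :=
    (hus.smul_left : HasCompactSupport ((fun x => Real.cos (θ x)) • u))
  have hu2c : HasCompactSupport u2 :=
    (hus.smul_left : HasCompactSupport ((fun x => Real.sin (θ x)) • u))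
  have hu11 : ContDiff ℝ 1 u1 := hu1s.of_le (by exact_mod_cast le_top)
  have hu21 : ContDiff ℝ 1 u2 := hu2s.of_le (by exact_mod_cast le_top)
  have hsq : ∀ {w : E3 → ℂ}, HasCompactSupport w → HasCompactSupport fun x => ‖w x‖ ^ 2 :=
    fun {w} hw => hw.comp_left (g := fun z : ℂ => ‖z‖ ^ 2) (by simp)
  have hsqc : ∀ {w : E3 → ℂ}, ContDiff ℝ 1 w → Continuous fun x => ‖w x‖ ^ 2 :=
    fun {w} hw => hw.continuous.norm.pow 2
  have hsqi : ∀ {w : E3 → ℂ}, ContDiff ℝ 1 w → HasCompactSupport w →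
      Integrable fun x => ‖w x‖ ^ 2 :=
    fun {w} hw hs => (hsqc hw).integrable_of_hasCompactSupport (hsq hs)
  -- the potential
  let Q : E3 → ℝ := fun x => min (Vext x) Λ + ρ x
  have hQm : Measurable Q := (hV.meas.min measurable_const).add hρc.measurable
  have hQl : ∀ K : Set E3, IsCompact K → ∃ M : ℝ, ∀ x ∈ K, |Q x| ≤ M := by
    intro K hK
    obtain ⟨M1, hM1⟩ := hV.loc K hK
    obtain ⟨M2, hM2⟩ := hK.exists_bound_of_continuousOn hρc.continuousOn
    refine ⟨M1 + |Λ| + M2, fun x hx => ?_⟩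
    have h1 := hM1 x hx
    have h2 := hM2 x hx
    rw [Real.norm_eq_abs] at h2
    have h3 : |min (Vext x) Λ| ≤ |Vext x| + |Λ| := by
      rcases min_choice (Vext x) Λ with h | h <;> rw [h]
      · linarith [abs_nonneg Λ]
      · linarith [abs_nonneg (Vext x)]
    calc |Q x| ≤ |min (Vext x) Λ| + |ρ x| := abs_add_le _ _
      _ ≤ _ := by linarith
  have hnorm : ∀ x, ‖u1 x‖ ^ 2 + ‖u2 x‖ ^ 2 = ‖u x‖ ^ 2 := by
    intro x
    change ‖Real.cos (θ x) • u x‖ ^ 2 + ‖Real.sin (θ x) • u x‖ ^ 2 = _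
    rw [norm_smul, norm_smul, mul_pow, mul_pow, Real.norm_eq_abs, Real.norm_eq_abs, sq_abs,
      sq_abs, ← add_mul, Real.cos_sq_add_sin_sq, one_mul]
  -- the first piece
  have hA : lam * ∫ x, ‖u1 x‖ ^ 2 ≤ ∫ x, (g3 u1 x + Q x * ‖u1 x‖ ^ 2) := by
    have h1 := hlam u1 hu1s hu1c
    have h2 : ∀ x, g3 u1 x + (Vext x + ρ x) * ‖u1 x‖ ^ 2 = g3 u1 x + Q x * ‖u1 x‖ ^ 2 := by
      intro x
      by_cases hx : ‖x‖ ≤ 2 * r
      · have h3 : Vext x ≤ Λ := by
          have := hM x (by rwa [mem_closedBall_zero_iff])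
          exact (le_abs_self _).trans (this.trans hΛM)
        change _ = g3 u1 x + (min (Vext x) Λ + ρ x) * ‖u1 x‖ ^ 2
        rw [min_eq_left h3]
      · have h3 : u1 x = 0 := by
          change Real.cos (ph (r⁻¹ • x)) • u x = 0
          rw [ph_out, Real.cos_pi_div_two, zero_smul]
          rw [norm_smul, norm_inv, Real.norm_eq_abs, abs_of_pos hr0, ← div_eq_inv_mul,
            le_div_iff₀ hr0]
          exact (not_le.mp hx).le
        rw [h3]
        simp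
    simp only [h2] at h1
    exact h1
  -- the second piece
  have hB : lam * ∫ x, ‖u2 x‖ ^ 2 ≤ ∫ x, (g3 u2 x + Q x * ‖u2 x‖ ^ 2) := by
    rw [← integral_const_mul]
    refine integral_mono ((hsqi hu21 hu2c).const_mul lam)
      ((g3_integrable hu21 hu2c).add (integrable_mul_cs hQm hQl (hsqc hu21) (hsq hu2c)))
      fun x => ?_
    change lam * ‖u2 x‖ ^ 2 ≤ g3 u2 x + Q x * ‖u2 x‖ ^ 2
    have h0 := g3_nonneg u2 x
    by_cases hx : ‖x‖ ≤ r
    · have h3 : u2 x = 0 := by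
        change Real.sin (ph (r⁻¹ • x)) • u x = 0
        rw [ph_in, Real.sin_zero, zero_smul]
        rw [norm_smul, norm_inv, Real.norm_eq_abs, abs_of_pos hr0, ← div_eq_inv_mul,
          div_le_one hr0]
        exact hx
      rw [h3, norm_zero]
      nlinarith
    · have h3 : lam ≤ Vext x := by
        refine hr3.trans (le_trans ?_ (hlow x))
        exact mul_le_mul_of_nonneg_left
          (Real.rpow_le_rpow hr0.le (not_le.mp hx).le hα.le) hC.le
      have h4 : lam ≤ Q x := by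
        change lam ≤ min (Vext x) Λ + ρ x
        have := hρ0 x
        have := le_min h3 hΛl
        linarith
      have := mul_le_mul_of_nonneg_right h4 (sq_nonneg ‖u2 x‖)
      linarith
  -- the sum
  have hI1 : Integrable fun x => g3 u1 x + Q x * ‖u1 x‖ ^ 2 :=
    (g3_integrable hu11 hu1c).add (integrable_mul_cs hQm hQl (hsqc hu11) (hsq hu1c))
  have hI2 : Integrable fun x => g3 u2 x + Q x * ‖u2 x‖ ^ 2 :=
    (g3_integrable hu21 hu2c).add (integrable_mul_cs hQm hQl (hsqc hu21) (hsq hu2c))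
  have hI : Integrable fun x => g3 u x + Q x * ‖u x‖ ^ 2 :=
    (g3_integrable hu1 hus).add (integrable_mul_cs hQm hQl (hsqc hu1) (hsq hus))
  have hpt : ∀ x, (g3 u1 x + Q x * ‖u1 x‖ ^ 2) + (g3 u2 x + Q x * ‖u2 x‖ ^ 2) ≤
      (g3 u x + Q x * ‖u x‖ ^ 2) + ε * ‖u x‖ ^ 2 := by
    intro x
    have h1 := ims hθd hud x
    have h2 : (∑ k : Fin 3, (fderiv ℝ θ x (EuclideanSpace.single k (1 : ℝ))) ^ 2) * ‖u x‖ ^ 2 ≤
        ε * ‖u x‖ ^ 2 := mul_le_mul_of_nonneg_right (hgrad x) (sq_nonneg _)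
    have h3 : Q x * ‖u1 x‖ ^ 2 + Q x * ‖u2 x‖ ^ 2 = Q x * ‖u x‖ ^ 2 := by
      rw [← mul_add, hnorm]
    change g3 u1 x + g3 u2 x = _ at h1
    linarith
  have hsum := integral_mono (hI1.add hI2) (hI.add ((hsqi hu1 hus).const_mul ε)) hpt
  have e1 : ∫ x, ((g3 u1 x + Q x * ‖u1 x‖ ^ 2) + (g3 u2 x + Q x * ‖u2 x‖ ^ 2)) =
      (∫ x, (g3 u1 x + Q x * ‖u1 x‖ ^ 2)) + ∫ x, (g3 u2 x + Q x * ‖u2 x‖ ^ 2) :=
    integral_add hI1 hI2
  have e2 : ∫ x, ((g3 u x + Q x * ‖u x‖ ^ 2) + ε * ‖u x‖ ^ 2) =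
      (∫ x, (g3 u x + Q x * ‖u x‖ ^ 2)) + ε * ∫ x, ‖u x‖ ^ 2 := by
    rw [← integral_const_mul]
    exact integral_add hI ((hsqi hu1 hus).const_mul ε)
  have e3 : ∫ x, ‖u x‖ ^ 2 = (∫ x, ‖u1 x‖ ^ 2) + ∫ x, ‖u2 x‖ ^ 2 := by
    rw [← integral_add (hsqi hu11 hu1c) (hsqi hu21 hu2c)]
    exact integral_congr_ae (Filter.Eventually.of_forall fun x => (hnorm x).symm)
  have hsum' : (∫ x, (g3 u1 x + Q x * ‖u1 x‖ ^ 2)) + ∫ x, (g3 u2 x + Q x * ‖u2 x‖ ^ 2) ≤
      (∫ x, (g3 u x + Q x * ‖u x‖ ^ 2)) + ε * ∫ x, ‖u x‖ ^ 2 := by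
    rw [← e1, ← e2]
    exact hsum
  change (lam - ε) * ∫ x, ‖u x‖ ^ 2 ≤ ∫ x, (g3 u x + Q x * ‖u x‖ ^ 2)
  have e4 : (lam - ε) * ∫ x, ‖u x‖ ^ 2 =
      lam * (∫ x, ‖u1 x‖ ^ 2) + lam * (∫ x, ‖u2 x‖ ^ 2) - ε * ∫ x, ‖u x‖ ^ 2 := by
    rw [sub_mul]
    congr 1
    rw [e3, mul_add]
  rw [e4]
  linarith

end Pool.Agent.W906.TWB
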